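import Pool.Agent.helper78.ED.Defs
import Pool.Agent.helper59.DM.DV

/-! # Project ED, module DT : detection of the zeros -/

set_option autoImplicit false

open Complex MeasureTheory

namespace Pool.Agent.helper78.ED

open Pool.Agent.helper84.DM

theorem DT_Zt_nonneg {η V t : ℝ} (hV : 0 ≤ V) : 0 ≤ Zt η V t := by
  unfold Zt
  exact intervalIntegral.integral_nonneg (by linarith)
    (fun v _ => mul_nonneg (norm_nonneg _) (Real.exp_pos _).le)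

/-- splitting of the series -/
theorem DT_split (f : ℕ → ℂ) (hf : Summable f) (N₀ N₁ : ℕ) (h0 : 1 ≤ N₀) (h01 : N₀ ≤ N₁)
    (hf0 : f 0 = 0) (hf1 : ∀ n, 1 < n → n ≤ N₀ → f n = 0) :
    ∑' n, f n = f 1 + ∑ n ∈ Finset.Ioc N₀ N₁, f n + ∑' n, (if N₁ < n then f n else 0) := by
  classical
  have hfin : Summable (fun n => if n ∈ Finset.range (N₁ + 1) then f n else 0) := by
    refine summable_of_ne_finset_zero (s := Finset.range (N₁ + 1)) (fun n hn => ?_)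
    rw [if_neg hn]
  have htail : Summable (fun n => if N₁ < n then f n else 0) := by
    have : (fun n => if N₁ < n then f n else 0)
        = fun n => f n - (if n ∈ Finset.range (N₁ + 1) then f n else 0) := by
      funext n
      by_cases h : N₁ < n
      · rw [if_pos h, if_neg (by rw [Finset.mem_range]; omega), sub_zero]
      · rw [if_neg h, if_pos (by rw [Finset.mem_range]; omega), sub_self]
    rw [this]
    exact hf.sub hfin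
  have h1 : ∑' n, f n = ∑' n, ((if n ∈ Finset.range (N₁ + 1) then f n else 0)
      + (if N₁ < n then f n else 0)) := by
    refine tsum_congr (fun n => ?_)
    by_cases h : N₁ < n
    · rw [if_pos h, if_neg (by rw [Finset.mem_range]; omega), zero_add]
    · rw [if_neg h, if_pos (by rw [Finset.mem_range]; omega), add_zero]
  rw [h1, hfin.tsum_add htail]
  congr 1
  rw [tsum_eq_sum (s := Finset.range (N₁ + 1)) (fun n hn => by rw [if_neg hn])]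
  have h2 : ∑ n ∈ Finset.range (N₁ + 1), (if n ∈ Finset.range (N₁ + 1) then f n else 0)
      = ∑ n ∈ Finset.range (N₁ + 1), f n :=
    Finset.sum_congr rfl (fun n hn => by rw [if_pos hn])
  rw [h2]
  have h3 : Finset.range (N₁ + 1) = Finset.range (N₀ + 1) ∪ Finset.Ioc N₀ N₁ := by
    ext n
    simp only [Finset.mem_range, Finset.mem_union, Finset.mem_Ioc]
    omega
  have h4 : Disjoint (Finset.range (N₀ + 1)) (Finset.Ioc N₀ N₁) := by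
    rw [Finset.disjoint_left]
    intro n hn hn'
    simp only [Finset.mem_range, Finset.mem_Ioc] at hn hn'
    omega
  rw [h3, Finset.sum_union h4]
  congr 1
  refine Finset.sum_eq_single 1 (fun n hn hn1 => ?_) (fun h => ?_)
  · rcases Nat.eq_zero_or_pos n with h | h
    · rw [h, hf0]
    · rw [Finset.mem_range] at hn
      exact hf1 n (by omega) (by omega)
  · exfalso
    apply h
    rw [Finset.mem_range]
    omega

theorem detect_of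
    (hA1 : ∀ {X : ℝ}, 1 ≤ X → am X 1 = 1)
    (hA0 : ∀ {X : ℝ} {n : ℕ}, 1 < n → (n : ℝ) ≤ X → am X n = 0)
    (hAM : ∀ (X : ℝ) (n : ℕ), ‖am X n‖ ≤ d n)
    (hP1 : ∀ (A : ℝ), 1 ≤ A → ∃ T₀ : ℝ, ∀ T : ℝ, T₀ ≤ T →
      1 / 2 ≤ ‖phi (Real.sqrt T) A (T / 2) 1‖)
    (hPS : ∀ (A c : ℝ), 1 ≤ A → 0 < c → c ≤ 1 → ∃ C T₀ : ℝ, 0 < C ∧
      ∀ T : ℝ, T₀ ≤ T → ∀ n : ℕ, 1 ≤ n → ‖phi (Real.sqrt T) A (T / 2) n‖ ≤ C * T ^ c)
    (hSE : ∀ {T A X : ℝ}, 1 ≤ T → 2 ≤ A → ∀ (ρ : ℂ), 0 ≤ ρ.re →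
      Summable (fun n : ℕ => ‖am X n * (n : ℂ) ^ (-ρ) * phi (Real.sqrt T) A (T / 2) n‖) ∧
      ∫ v in (-(T / 2))..(T / 2), riemannZeta (ρ + ((A : ℂ) + v * I)) *
          moll X (ρ + ((A : ℂ) + v * I)) * ker (Real.sqrt T) A v
        = ∑' n : ℕ, am X n * (n : ℂ) ^ (-ρ) * phi (Real.sqrt T) A (T / 2) n)
    (hTL : ∀ (δ : ℝ), 0 < δ → δ ≤ 1 / 4 → ∃ A T₀ : ℝ, 2 ≤ A ∧ ∀ T : ℝ, T₀ ≤ T →
      ∀ (X : ℝ) (ρ : ℂ), 1 / 2 ≤ ρ.re →
        ‖∑' n : ℕ, (if ⌊T ^ (1 / 2 + δ)⌋₊ < n then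
          am X n * (n : ℂ) ^ (-ρ) * phi (Real.sqrt T) A (T / 2) n else 0)‖ ≤ 1 / 16)
    (hSH : ∀ (η A : ℝ), 0 < η → η ≤ 1 / 8 → 2 ≤ A → ∃ C T₀ : ℝ, 0 < C ∧
      ∀ T : ℝ, T₀ ≤ T → ∀ X : ℝ, 1 ≤ X → X ≤ T → ∀ ρ : ℂ, riemannZeta ρ = 0 →
        1 / 2 + 2 * η ≤ ρ.re → T ≤ ρ.im → ρ.im ≤ 2 * T →
        ‖∫ v in (-(T / 2))..(T / 2), riemannZeta (ρ + ((A : ℂ) + v * I)) *
          moll X (ρ + ((A : ℂ) + v * I)) * ker (Real.sqrt T) A v‖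
          ≤ 1 / 16 + C * X * Real.sqrt T ^ (1 / 2 + η - ρ.re) * Zt η (T / 2) ρ.im)
    (δ κ η : ℝ) (hδ : 0 < δ) (hδ1 : δ ≤ 1 / 4) (hκ : 0 < κ) (hη : 0 < η)
    (hη1 : η ≤ 1 / 8) : ∃ (c : ℝ → ℕ → ℂ) (C T₀ : ℝ), 0 < C ∧ ∀ T : ℝ, T₀ ≤ T →
      (∀ n : ℕ, 1 ≤ n → (n : ℝ) ≤ T → ‖c T n‖ ≤ C * T ^ κ) ∧
      ∀ ρ : ℂ, riemannZeta ρ = 0 → 1 / 2 + 2 * η ≤ ρ.re → T ≤ ρ.im → ρ.im ≤ 2 * T →
        1 / 4 ≤ ‖∑ n ∈ Finset.Ioc ⌊T ^ δ⌋₊ ⌊T ^ (1 / 2 + δ)⌋₊, c T n * (n : ℂ) ^ (-ρ)‖ +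
          C * T ^ δ * Real.sqrt T ^ (1 / 2 + η - ρ.re) * Zt η (T / 2) ρ.im := by
  obtain ⟨A, T₁, hA2, htail⟩ := hTL δ hδ hδ1
  obtain ⟨T₂, hphi1⟩ := hP1 A (by linarith)
  set c' : ℝ := min (κ / 2) 1 with hc'
  have hc'0 : 0 < c' := lt_min (by positivity) one_pos
  have hc'1 : c' ≤ 1 := min_le_right _ _
  have hc'κ : c' ≤ κ / 2 := min_le_left _ _
  obtain ⟨C₃, T₃, hC₃, hphis⟩ := hPS A c' (by linarith) hc'0 hc'1
  obtain ⟨C₄, T₄, hC₄, hshift⟩ := hSH η A hη hη1 hA2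
  obtain ⟨D, hD, hdiv⟩ := divisor_bound (κ / 2) (by positivity)
  refine ⟨fun T n => am (T ^ δ) n * phi (Real.sqrt T) A (T / 2) n, max (D * C₃) C₄,
    max 1 (max (max T₁ T₂) (max T₃ T₄)), lt_of_lt_of_le hC₄ (le_max_right _ _), fun T hT => ?_⟩
  have hT1 : 1 ≤ T := (le_max_left _ _).trans hT
  have hT0 : 0 < T := by linarith
  have hrest := (le_max_right _ _).trans hT
  have hTT1 : T₁ ≤ T := (le_max_left _ _).trans ((le_max_left _ _).trans hrest)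
  have hTT2 : T₂ ≤ T := (le_max_right _ _).trans ((le_max_left _ _).trans hrest)
  have hTT3 : T₃ ≤ T := (le_max_left _ _).trans ((le_max_right _ _).trans hrest)
  have hTT4 : T₄ ≤ T := (le_max_right _ _).trans ((le_max_right _ _).trans hrest)
  refine ⟨fun n hn hnT => ?_, fun ρ hζ hre him1 him2 => ?_⟩
  · -- the size of the coefficients
    have hn0 : (0 : ℝ) ≤ n := Nat.cast_nonneg _
    have hd0 : 0 ≤ d n := Nat.cast_nonneg _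
    have h1 : d n ≤ D * T ^ (κ / 2) :=
      (hdiv n hn).trans (mul_le_mul_of_nonneg_left
        (Real.rpow_le_rpow hn0 hnT (by positivity)) hD.le)
    have h2 : ‖phi (Real.sqrt T) A (T / 2) n‖ ≤ C₃ * T ^ (κ / 2) :=
      (hphis T hTT3 n hn).trans (mul_le_mul_of_nonneg_left
        (Real.rpow_le_rpow_of_exponent_le hT1 hc'κ) hC₃.le)
    calc ‖am (T ^ δ) n * phi (Real.sqrt T) A (T / 2) n‖
        = ‖am (T ^ δ) n‖ * ‖phi (Real.sqrt T) A (T / 2) n‖ := norm_mul _ _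
      _ ≤ (D * T ^ (κ / 2)) * (C₃ * T ^ (κ / 2)) :=
          mul_le_mul ((hAM _ n).trans h1) h2 (norm_nonneg _) (by positivity)
      _ = D * C₃ * T ^ κ := by
          have : T ^ κ = T ^ (κ / 2) * T ^ (κ / 2) := by
            rw [← Real.rpow_add hT0]; congr 1; ring
          rw [this]; ring
      _ ≤ max (D * C₃) C₄ * T ^ κ :=
          mul_le_mul_of_nonneg_right (le_max_left _ _) (by positivity)
  · set X : ℝ := T ^ δ with hX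
    have hX1 : 1 ≤ X := Real.one_le_rpow hT1 hδ.le
    have hXT : X ≤ T := by
      calc X ≤ T ^ (1 : ℝ) := Real.rpow_le_rpow_of_exponent_le hT1 (by linarith)
        _ = T := Real.rpow_one T
    have hre0 : 0 ≤ ρ.re := by linarith
    obtain ⟨hsum, hint⟩ := hSE (T := T) (A := A) (X := X) hT1 hA2 ρ hre0
    set f : ℕ → ℂ := fun n => am X n * (n : ℂ) ^ (-ρ) * phi (Real.sqrt T) A (T / 2) n with hf
    have hfs : Summable f := hsum.of_norm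
    have hN0 : 1 ≤ ⌊X⌋₊ := by
      rw [Nat.one_le_floor_iff]
      exact hX1
    have hN01 : ⌊X⌋₊ ≤ ⌊T ^ (1 / 2 + δ)⌋₊ :=
      Nat.floor_le_floor (Real.rpow_le_rpow_of_exponent_le hT1 (by linarith))
    have hf0 : f 0 = 0 := by
      have : am X 0 = 0 := by
        unfold am
        simp
      simp only [hf, this, zero_mul]
    have hfz : ∀ n, 1 < n → n ≤ ⌊X⌋₊ → f n = 0 := by
      intro n h1 h2
      have h3 : (n : ℝ) ≤ X := (Nat.le_floor_iff (by linarith)).mp h2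
      simp only [hf, hA0 h1 h3, zero_mul]
    have hf1 : f 1 = phi (Real.sqrt T) A (T / 2) 1 := by
      simp only [hf, hA1 hX1, Nat.cast_one, Complex.one_cpow, one_mul]
    have hsplit := DT_split f hfs ⌊X⌋₊ ⌊T ^ (1 / 2 + δ)⌋₊ hN0 hN01 hf0 hfz
    have hmid : ∑ n ∈ Finset.Ioc ⌊X⌋₊ ⌊T ^ (1 / 2 + δ)⌋₊, f n
        = ∑ n ∈ Finset.Ioc ⌊X⌋₊ ⌊T ^ (1 / 2 + δ)⌋₊,
          (am X n * phi (Real.sqrt T) A (T / 2) n) * (n : ℂ) ^ (-ρ) :=
      Finset.sum_congr rfl (fun n _ => by simp only [hf]; ring)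
    have hb1 := hshift T hTT4 X hX1 hXT ρ hζ hre him1 him2
    rw [hint] at hb1
    have hb2 := htail T hTT1 X ρ (by linarith)
    have hb3 := hphi1 T hTT2
    rw [← hf1] at hb3
    have hf1' : f 1 = ∑' n, f n - ∑ n ∈ Finset.Ioc ⌊X⌋₊ ⌊T ^ (1 / 2 + δ)⌋₊, f n
        - ∑' n, (if ⌊T ^ (1 / 2 + δ)⌋₊ < n then f n else 0) := by
      rw [hsplit]; ring
    have hnorm : ‖f 1‖ ≤ ‖∑' n, f n‖ + ‖∑ n ∈ Finset.Ioc ⌊X⌋₊ ⌊T ^ (1 / 2 + δ)⌋₊, f n‖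
        + ‖∑' n, (if ⌊T ^ (1 / 2 + δ)⌋₊ < n then f n else 0)‖ := by
      rw [hf1']
      refine (norm_sub_le _ _).trans (add_le_add (norm_sub_le _ _) le_rfl)
    have hZ : 0 ≤ Zt η (T / 2) ρ.im := DT_Zt_nonneg (by positivity)
    have hCle : C₄ * X * Real.sqrt T ^ (1 / 2 + η - ρ.re) * Zt η (T / 2) ρ.im
        ≤ max (D * C₃) C₄ * X * Real.sqrt T ^ (1 / 2 + η - ρ.re) * Zt η (T / 2) ρ.im := by
      have : C₄ ≤ max (D * C₃) C₄ := le_max_right _ _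
      have hs : 0 ≤ Real.sqrt T ^ (1 / 2 + η - ρ.re) := Real.rpow_nonneg (Real.sqrt_nonneg T) _
      gcongr
    rw [hmid] at hnorm
    change 1 / 4 ≤ ‖∑ n ∈ Finset.Ioc ⌊X⌋₊ ⌊T ^ (1 / 2 + δ)⌋₊,
          (am X n * phi (Real.sqrt T) A (T / 2) n) * (n : ℂ) ^ (-ρ)‖ + _
    have hb2' : ‖∑' n, (if ⌊T ^ (1 / 2 + δ)⌋₊ < n then f n else 0)‖ ≤ 1 / 16 := hb2
    have hb1' : ‖∑' n, f n‖ ≤ 1 / 16 +
        C₄ * X * Real.sqrt T ^ (1 / 2 + η - ρ.re) * Zt η (T / 2) ρ.im := hb1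
    linarith

end Pool.Agent.helper78.ED
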