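import Pool.Agent.helper78.ED.Defs
import Pool.Agent.helper59.DM.DV

/-! # Project ED, module TL : the tail of the series -/

set_option autoImplicit false

open Complex MeasureTheory

namespace Pool.Agent.helper78.ED

open Pool.Agent.helper84.DM

theorem tail_of
    (hAM : ∀ (X : ℝ) (n : ℕ), ‖am X n‖ ≤ d n)
    (hPT : ∀ (A : ℝ), 1 ≤ A → ∃ C : ℝ, 0 < C ∧ ∀ T : ℝ, 1 ≤ T → ∀ n : ℕ, 1 ≤ n →
      ‖phi (Real.sqrt T) A (T / 2) n‖ ≤ C * (Real.sqrt T / n) ^ A)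
    (δ : ℝ) (hδ : 0 < δ) (_hδ1 : δ ≤ 1 / 4) : ∃ A T₀ : ℝ, 2 ≤ A ∧ ∀ T : ℝ, T₀ ≤ T →
    ∀ (X : ℝ) (ρ : ℂ), 1 / 2 ≤ ρ.re →
      ‖∑' n : ℕ, (if ⌊T ^ (1 / 2 + δ)⌋₊ < n then
        am X n * (n : ℂ) ^ (-ρ) * phi (Real.sqrt T) A (T / 2) n else 0)‖ ≤ 1 / 16 := by
  set A : ℝ := 2 + 2 / δ with hA
  have hA2 : 2 ≤ A := by
    have : 0 < 2 / δ := by positivity
    linarith
  obtain ⟨C, hC, hphi⟩ := hPT A (by linarith)
  have hS : Summable (fun n : ℕ => d n * (n : ℝ) ^ (-(5 / 2 : ℝ))) :=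
    d_summable (5 / 2) (by norm_num)
  set S : ℝ := ∑' n : ℕ, d n * (n : ℝ) ^ (-(5 / 2 : ℝ)) with hSdef
  have hS0 : 0 ≤ S := tsum_nonneg (fun n =>
    mul_nonneg (Nat.cast_nonneg _) (Real.rpow_nonneg (Nat.cast_nonneg _) _))
  refine ⟨A, max 1 (16 * (C * S)), hA2, fun T hT X ρ hρ => ?_⟩
  have hT1 : 1 ≤ T := (le_max_left _ _).trans hT
  have hT0 : 0 < T := by linarith
  have hT2 : 16 * (C * S) ≤ T := (le_max_right _ _).trans hT
  have hsq : Real.sqrt T = T ^ (1 / 2 : ℝ) := Real.sqrt_eq_rpow T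
  have hbound : ∀ n : ℕ, ‖(if ⌊T ^ (1 / 2 + δ)⌋₊ < n then
        am X n * (n : ℂ) ^ (-ρ) * phi (Real.sqrt T) A (T / 2) n else 0)‖
        ≤ C / T * (d n * (n : ℝ) ^ (-(5 / 2 : ℝ))) := by
    intro n
    by_cases hn : ⌊T ^ (1 / 2 + δ)⌋₊ < n
    · rw [if_pos hn]
      have hn1 : 1 ≤ n := by omega
      have hnr : (1 : ℝ) ≤ n := by exact_mod_cast hn1
      have hn0 : (0 : ℝ) < n := by linarith
      have hnT : T ^ (1 / 2 + δ) < n := Nat.lt_of_floor_lt hn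
      have e1 : ‖(n : ℂ) ^ (-ρ)‖ ≤ (n : ℝ) ^ (-(1 / 2 : ℝ)) := by
        rw [Complex.norm_natCast_cpow_of_pos (by omega)]
        rw [Complex.neg_re]
        exact Real.rpow_le_rpow_of_exponent_le hnr (by linarith)
      have hq0 : 0 < Real.sqrt T / n := div_pos (Real.sqrt_pos.mpr hT0) hn0
      have e2 : Real.sqrt T / n ≤ T ^ (-δ) := by
        rw [div_le_iff₀ hn0, hsq]
        calc T ^ (1 / 2 : ℝ) = T ^ (-δ) * T ^ (1 / 2 + δ) := by
              rw [← Real.rpow_add hT0]; congr 1; ring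
          _ ≤ T ^ (-δ) * n := mul_le_mul_of_nonneg_left hnT.le (by positivity)
      have e3 : (Real.sqrt T / n) ^ A ≤ T⁻¹ * (n : ℝ) ^ (-(2 : ℝ)) := by
        have h1 : (Real.sqrt T / n) ^ A = (Real.sqrt T / n) ^ (A - 2) * (Real.sqrt T / n) ^ (2 : ℝ) := by
          rw [← Real.rpow_add hq0]; congr 1; ring
        have h2 : (Real.sqrt T / n) ^ (A - 2) ≤ T ^ (-(2 : ℝ)) := by
          calc (Real.sqrt T / n) ^ (A - 2) ≤ (T ^ (-δ)) ^ (A - 2) :=
                Real.rpow_le_rpow hq0.le e2 (by linarith)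
            _ = T ^ (-(2 : ℝ)) := by
                rw [← Real.rpow_mul hT0.le]
                congr 1
                rw [hA]
                field_simp
                ring
        have h3 : (Real.sqrt T / n) ^ (2 : ℝ) = T * (n : ℝ) ^ (-(2 : ℝ)) := by
          rw [Real.div_rpow (Real.sqrt_nonneg T) hn0.le, Real.rpow_neg hn0.le, div_eq_mul_inv]
          congr 1
          rw [hsq, ← Real.rpow_mul hT0.le]
          norm_num
        rw [h1, h3]
        calc (Real.sqrt T / n) ^ (A - 2) * (T * (n : ℝ) ^ (-(2 : ℝ)))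
            ≤ T ^ (-(2 : ℝ)) * (T * (n : ℝ) ^ (-(2 : ℝ))) :=
              mul_le_mul_of_nonneg_right h2 (by positivity)
          _ = T⁻¹ * (n : ℝ) ^ (-(2 : ℝ)) := by
              have : T ^ (-(2 : ℝ)) * T = T⁻¹ := by
                rw [← Real.rpow_add_one hT0.ne', ← Real.rpow_neg_one]
                norm_num
              rw [← mul_assoc, this]
      have hd0 : 0 ≤ d n := Nat.cast_nonneg _
      calc ‖am X n * (n : ℂ) ^ (-ρ) * phi (Real.sqrt T) A (T / 2) n‖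
          = ‖am X n‖ * ‖(n : ℂ) ^ (-ρ)‖ * ‖phi (Real.sqrt T) A (T / 2) n‖ := by
            rw [norm_mul, norm_mul]
        _ ≤ d n * (n : ℝ) ^ (-(1 / 2 : ℝ)) * (C * (T⁻¹ * (n : ℝ) ^ (-(2 : ℝ)))) := by
            refine mul_le_mul (mul_le_mul (hAM X n) e1 (norm_nonneg _) hd0) ?_ (norm_nonneg _)
              (by positivity)
            exact (hphi T hT1 n hn1).trans (mul_le_mul_of_nonneg_left e3 hC.le)
        _ = C / T * (d n * ((n : ℝ) ^ (-(1 / 2 : ℝ)) * (n : ℝ) ^ (-(2 : ℝ)))) := by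
            field_simp
        _ = C / T * (d n * (n : ℝ) ^ (-(5 / 2 : ℝ))) := by
            rw [← Real.rpow_add hn0]
            norm_num
    · rw [if_neg hn, norm_zero]
      have hd0 : 0 ≤ d n := Nat.cast_nonneg _
      positivity
  have hsum : HasSum (fun n : ℕ => C / T * (d n * (n : ℝ) ^ (-(5 / 2 : ℝ)))) (C / T * S) :=
    hS.hasSum.mul_left _
  refine (tsum_of_norm_bounded hsum hbound).trans ?_
  rw [div_mul_eq_mul_div, div_le_iff₀ hT0]
  linarith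

end Pool.Agent.helper78.ED
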